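import Mathlib

set_option autoImplicit false

namespace Pool.Agent.H.MP_bdfe62_co

open SimpleGraph

variable {α β γ : Type}

def Rch (G : SimpleGraph β) (S : Set β) (r : ℕ) (a b : β) : Prop :=
  ∃ p : G.Walk a b, p.length ≤ r ∧ ∀ y ∈ p.support, y ∈ S

lemma Rch.refl {G : SimpleGraph β} {S : Set β} {a : β} (h : a ∈ S) (r : ℕ) : Rch G S r a a :=
  ⟨Walk.nil, Nat.zero_le _, by simpa using h⟩

lemma Rch.mono {G : SimpleGraph β} {S S' : Set β} {r r' : ℕ} {a b : β} (h : Rch G S r a b)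
    (hS : S ⊆ S') (hr : r ≤ r') : Rch G S' r' a b := by
  obtain ⟨p, h1, h2⟩ := h
  exact ⟨p, h1.trans hr, fun y hy => hS (h2 y hy)⟩

lemma Rch.symm {G : SimpleGraph β} {S : Set β} {r : ℕ} {a b : β} (h : Rch G S r a b) :
    Rch G S r b a := by
  obtain ⟨p, h1, h2⟩ := h
  exact ⟨p.reverse, by simpa using h1, fun y hy => h2 y (by simpa using hy)⟩

lemma Rch.trans {G : SimpleGraph β} {S : Set β} {r s : ℕ} {a b c : β} (h : Rch G S r a b)
    (h' : Rch G S s b c) : Rch G S (r + s) a c := by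
  obtain ⟨p, h1, h2⟩ := h
  obtain ⟨q, h3, h4⟩ := h'
  refine ⟨p.append q, by rw [Walk.length_append]; omega, fun y hy => ?_⟩
  rcases (Walk.mem_support_append_iff _ _).1 hy with h | h
  · exact h2 y h
  · exact h4 y h

lemma Rch.adj {G : SimpleGraph β} {S : Set β} {a b : β} (h : G.Adj a b) (ha : a ∈ S) (hb : b ∈ S) :
    Rch G S 1 a b :=
  ⟨Walk.cons h Walk.nil, by simp, fun y hy => by
    simp only [Walk.support_cons, Walk.support_nil, List.mem_cons, List.not_mem_nil,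
      or_false] at hy
    rcases hy with rfl | rfl <;> assumption⟩

lemma Rch.right_mem {G : SimpleGraph β} {S : Set β} {r : ℕ} {a b : β} (h : Rch G S r a b) :
    b ∈ S := by
  obtain ⟨p, -, h2⟩ := h
  exact h2 b p.end_mem_support

lemma Rch.zero {G : SimpleGraph β} {S : Set β} {a b : β} (h : Rch G S 0 a b) : a = b := by
  obtain ⟨p, h1, -⟩ := h
  exact p.eq_of_length_eq_zero (by omega)

lemma Rch.succ {G : SimpleGraph β} {S : Set β} {r : ℕ} {a b : β} (h : Rch G S (r + 1) a b) :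
    Rch G S r a b ∨ ∃ c, Rch G S r a c ∧ G.Adj c b := by
  obtain ⟨p, h1, h2⟩ := h.symm
  cases p with
  | nil => exact Or.inl (Rch.refl (h2 _ (by simp)) r)
  | cons hadj q =>
    refine Or.inr ⟨_, Rch.symm ⟨q, ?_, fun y hy => h2 y (by simp [hy])⟩, hadj.symm⟩
    simp only [Walk.length_cons] at h1
    omega

lemma Rch.ind {G : SimpleGraph β} {S : Set β} {a : β} (P : ℕ → β → Prop) (h0 : P 0 a)
    (hm : ∀ r b, P r b → P (r + 1) b)
    (hs : ∀ r b c, b ∈ S → c ∈ S → P r b → G.Adj b c → P (r + 1) c) :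
    ∀ r b, Rch G S r a b → P r b := by
  intro r
  induction r with
  | zero => intro b h; rw [← h.zero]; exact h0
  | succ r ih =>
    intro b h
    rcases h.succ with h1 | ⟨c, h1, h2⟩
    · exact hm _ _ (ih b h1)
    · exact hs r c b h1.right_mem h.right_mem (ih c h1) h2

structure Model (r : ℕ) (H : SimpleGraph α) (G : SimpleGraph β) (B : α → Set β) (ctr : α → β) :
    Prop where
  dis : ∀ i j x, x ∈ B i → x ∈ B j → i = j
  mem : ∀ i, ctr i ∈ B i
  rch : ∀ i, ∀ x ∈ B i, Rch G (B i) r (ctr i) x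
  adj : ∀ i j, H.Adj i j → ∃ x ∈ B i, ∃ y ∈ B j, G.Adj x y

def SM (r : ℕ) (H : SimpleGraph α) (G : SimpleGraph β) : Prop := ∃ B ctr, Model r H G B ctr

lemma SM.sub {r : ℕ} {H H' : SimpleGraph α} {G : SimpleGraph β} (h : SM r H G) (hl : H' ≤ H) :
    SM r H' G := by
  obtain ⟨B, c, h⟩ := h
  exact ⟨B, c, h.dis, h.mem, h.rch, fun i j a => h.adj i j (hl a)⟩

lemma SM.refl (r : ℕ) (H : SimpleGraph α) : SM r H H :=
  ⟨fun i => {i}, id, fun _ _ _ h1 h2 => h1.symm.trans h2, fun _ => rfl,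
    fun i x hx => by rw [hx]; exact Rch.refl (Set.mem_singleton i) r, fun i j h => ⟨i, rfl, j, rfl, h⟩⟩

lemma Model.lift {r : ℕ} {H : SimpleGraph α} {G : SimpleGraph β} {B : α → Set β} {ctr : α → β}
    (h : Model r H G B ctr) {i j : α} (a : H.Adj i j) :
    Rch G (B i ∪ B j) (2 * r + 1) (ctr i) (ctr j) := by
  obtain ⟨x, hx, y, hy, e⟩ := h.adj i j a
  have h1 := ((h.rch i x hx).mono (S' := B i ∪ B j) Set.subset_union_left le_rfl).trans
    ((Rch.adj e (Or.inl hx) (Or.inr hy)).trans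
      ((h.rch j y hy).symm.mono Set.subset_union_right le_rfl))
  exact h1.mono subset_rfl (by omega)

lemma SM.trans {r s : ℕ} {K : SimpleGraph γ} {H : SimpleGraph α} {G : SimpleGraph β}
    (h1 : SM s K H) (h2 : SM r H G) : SM (s * (2 * r + 1) + r) K G := by
  obtain ⟨B', c', h1⟩ := h1
  obtain ⟨B, c, h2⟩ := h2
  refine ⟨fun k => {x | ∃ i ∈ B' k, x ∈ B i}, fun k => c (c' k), ?_, ?_, ?_, ?_⟩
  · rintro k l x ⟨i, hi, hx⟩ ⟨j, hj, hx'⟩
    obtain rfl := h2.dis i j x hx hx'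
    exact h1.dis k l i hi hj
  · exact fun k => ⟨c' k, h1.mem k, h2.mem _⟩
  · rintro k x ⟨i, hi, hx⟩
    have key := Rch.ind (G := H) (S := B' k) (a := c' k)
      (fun t j => Rch G {x | ∃ i ∈ B' k, x ∈ B i} (t * (2 * r + 1)) (c (c' k)) (c j))
      (Rch.refl (S := {x | ∃ i ∈ B' k, x ∈ B i}) ⟨c' k, h1.mem k, h2.mem _⟩ _)
      (fun t j h => h.mono subset_rfl (Nat.mul_le_mul_right _ (Nat.le_succ t)))
      (fun t j l hj hl h a => by
        rw [Nat.succ_mul]
        refine h.trans ((h2.lift a).mono ?_ le_rfl)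
        rintro y (hy | hy)
        · exact ⟨j, hj, hy⟩
        · exact ⟨l, hl, hy⟩) s i (h1.rch k i hi)
    exact key.trans ((h2.rch i x hx).mono (fun y hy => ⟨i, hi, hy⟩) le_rfl)
  · intro k l a
    obtain ⟨i, hi, j, hj, e⟩ := h1.adj k l a
    obtain ⟨x, hx, y, hy, e'⟩ := h2.adj i j e
    exact ⟨x, ⟨i, hi, hx⟩, y, ⟨j, hj, hy⟩, e'⟩

def WD (d D : ℕ) (H : SimpleGraph α) : Prop :=
  ∃ c : α → Fin (d + 1), ∀ u v,
    Relation.ReflTransGen (fun a b => c a = c b ∧ H.Adj a b) u v → Rch H Set.univ D u v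

lemma rch_edist {G : SimpleGraph β} {r : ℕ} {a b : β} :
    Rch G Set.univ r a b ↔ G.edist a b ≤ (r : ℕ∞) := by
  constructor
  · rintro ⟨p, h, -⟩
    exact p.edist_le.trans (by exact_mod_cast h)
  · intro h
    obtain ⟨p, hp⟩ := exists_walk_of_edist_ne_top (G := G) (u := a) (v := b)
      (ne_top_of_le_ne_top (ENat.natCast_ne_top r) h)
    refine ⟨p, ?_, fun _ _ => trivial⟩
    rw [← hp] at h
    exact_mod_cast h

lemma wd_of_sm {R d : ℕ} {f : ℕ → ℕ} {H : SimpleGraph α} {G : SimpleGraph β} (h : SM R H G)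
    (hG : ∀ G' : SimpleGraph β, G' ≤ G → ∀ r : ℕ, ∃ c : β → Fin (d + 1), ∀ u v : β,
      Relation.ReflTransGen (fun a b => c a = c b ∧ G'.edist a b ≤ (r : ℕ∞)) u v →
      G'.edist u v ≤ (f r : ℕ∞)) : WD d (f (2 * R + 1)) H := by
  obtain ⟨B, ctr, h⟩ := h
  let G' : SimpleGraph β :=
    { Adj := fun x y => G.Adj x y ∧ ∃ i j, x ∈ B i ∧ y ∈ B j ∧ (i = j ∨ H.Adj i j)
      symm := ⟨fun x y ⟨a, i, j, hi, hj, e⟩ =>
        ⟨a.symm, j, i, hj, hi, e.imp Eq.symm fun e => e.symm⟩⟩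
      loopless := ⟨fun x a => a.1.ne rfl⟩ }
  have m : Model R H G' B ctr := by
    refine ⟨h.dis, h.mem, fun i x hx => ?_, fun i j a => ?_⟩
    · exact Rch.ind (G := G) (S := B i) (a := ctr i) (fun t y => Rch G' (B i) t (ctr i) y)
        (Rch.refl (h.mem i) _) (fun t y h => h.mono subset_rfl (Nat.le_succ t))
        (fun t y z hy hz h a => h.trans (Rch.adj ⟨a, i, i, hy, hz, Or.inl rfl⟩ hy hz))
        R x (h.rch i x hx)
    · obtain ⟨x, hx, y, hy, e⟩ := h.adj i j a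
      exact ⟨x, hx, y, hy, e, i, j, hx, hy, Or.inr a⟩
  obtain ⟨c, hc⟩ := hG G' (fun _ _ a => a.1) (2 * R + 1)
  refine ⟨fun i => c (ctr i), fun u v huv => ?_⟩
  have h1 : Rch G' Set.univ (f (2 * R + 1)) (ctr u) (ctr v) := by
    refine rch_edist.2 (hc _ _ ?_)
    induction huv with
    | refl => exact Relation.ReflTransGen.refl
    | tail _ e ih =>
      exact ih.tail ⟨e.1, rch_edist.1 ((m.lift e.2).mono (Set.subset_univ _) le_rfl)⟩
  obtain ⟨j, hj, h2⟩ := Rch.ind (G := G') (S := Set.univ) (a := ctr u)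
    (fun t y => ∃ j, y ∈ B j ∧ Rch H Set.univ t u j) ⟨u, h.mem u, Rch.refl (Set.mem_univ _) _⟩
    (fun t y ⟨j, hj, h⟩ => ⟨j, hj, h.mono subset_rfl (Nat.le_succ t)⟩)
    (fun t y z _ _ ⟨j, hj, h3⟩ ⟨_, i, l, hi, hl, e⟩ => by
      obtain rfl := h.dis i j y hi hj
      rcases e with rfl | e
      · exact ⟨i, hl, h3.mono subset_rfl (Nat.le_succ t)⟩
      · exact ⟨l, hl, h3.trans (Rch.adj e (Set.mem_univ _) (Set.mem_univ _))⟩) _ _ h1
  rwa [h.dis v j _ (h.mem v) hj]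

def Col (H : SimpleGraph α) (L : Set α) (t : ℕ) : Prop :=
  ∃ φ : α → Fin t, ∀ x ∈ L, ∀ y ∈ L, H.Adj x y → φ x ≠ φ y

def sph (H : SimpleGraph α) (v : α) (i : ℕ) : Set α :=
  {x | Rch H Set.univ i v x ∧ ∀ j < i, ¬ Rch H Set.univ j v x}

lemma col_of_wd {d D t : ℕ} {H : SimpleGraph α} (h : WD d D H)
    (hs : ∀ v, ∀ i ≤ D, Col H (sph H v i) t) : Col H Set.univ ((d + 1) * (D + 1) * t) := by
  classical
  obtain ⟨c, hc⟩ := h
  let s : Setoid α := ⟨Relation.ReflTransGen fun a b => c a = c b ∧ H.Adj a b,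
    ⟨fun _ => Relation.ReflTransGen.refl,
      fun {a b} h => by
        induction h with
        | refl => exact Relation.ReflTransGen.refl
        | tail _ e ih => exact Relation.ReflTransGen.head ⟨e.1.symm, e.2.symm⟩ ih,
      fun h h' => h.trans h'⟩⟩
  let root : α → α := fun x => (Quotient.mk s x).out
  have hr : ∀ x, Rch H Set.univ D (root x) x := fun x => hc _ _ (Quotient.mk_out (s := s) x)
  have ex : ∀ x, ∃ i, Rch H Set.univ i (root x) x := fun x => ⟨D, hr x⟩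
  have le : ∀ x, Nat.find (ex x) ≤ D := fun x => Nat.find_min' _ (hr x)
  have ms : ∀ x, x ∈ sph H (root x) (Nat.find (ex x)) := fun x =>
    ⟨Nat.find_spec (ex x), fun j hj => Nat.find_min _ hj⟩
  choose φ hφ using hs
  let ψ : α → (Fin (d + 1) × Fin (D + 1)) × Fin t := fun x =>
    ((c x, ⟨Nat.find (ex x), Nat.lt_succ_of_le (le x)⟩), φ (root x) _ (le x) x)
  refine ⟨fun x => finProdFinEquiv (finProdFinEquiv (ψ x).1, (ψ x).2), fun x _ y _ a e => ?_⟩
  have e1 := finProdFinEquiv.injective e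
  have e2 := finProdFinEquiv.injective (congrArg Prod.fst e1)
  have e3 : c x = c y := congrArg Prod.fst e2
  have e4 : Nat.find (ex x) = Nat.find (ex y) := congrArg (fun p => p.2.val) e2
  have e5 : root x = root y := by
    show (Quotient.mk s x).out = (Quotient.mk s y).out
    rw [Quotient.sound (s := s) (Relation.ReflTransGen.single ⟨e3, a⟩)]
  have e6 : φ (root x) _ (le x) x = φ (root y) _ (le y) y := congrArg Prod.snd e1
  have m2 := ms y
  have k : ∀ (v w : α) (i j : ℕ) (hi : i ≤ D) (hj : j ≤ D), v = w → i = j →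
      φ v i hi y = φ w j hj y := by
    intro v w i j hi hj h1 h2
    subst h1; subst h2; rfl
  rw [← e4, ← e5] at m2
  exact hφ _ _ (le x) x (ms x) y m2 a (e6.trans (k _ _ _ _ _ _ e5.symm e4.symm))

lemma level {d D t : ℕ} (ht : 1 ≤ t) {H : SimpleGraph α} (h : ∀ H' ≤ H, WD d D H') (L : Set α)
    (hL : ¬ Col H L ((d + 1) * (D + 1) * t)) :
    ∃ (T L' : Set α) (v : α), T ⊆ L ∧ L' ⊆ L ∧ (∀ x ∈ T, x ∉ L') ∧ v ∈ T ∧
      (∀ x ∈ T, Rch H T D v x) ∧ (∀ x ∈ L', ∃ y ∈ T, H.Adj y x) ∧ ¬ Col H L' t := by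
  let H' : SimpleGraph α :=
    { Adj := fun x y => H.Adj x y ∧ x ∈ L ∧ y ∈ L
      symm := ⟨fun x y a => ⟨a.1.symm, a.2.2, a.2.1⟩⟩
      loopless := ⟨fun x a => a.1.ne rfl⟩ }
  have h1 : ¬ ∀ v, ∀ i ≤ D, Col H' (sph H' v i) t := by
    intro hs
    obtain ⟨φ, hφ⟩ := col_of_wd (h H' fun _ _ a => a.1) hs
    exact hL ⟨φ, fun x hx y hy a => hφ x trivial y trivial ⟨a, hx, hy⟩⟩
  push Not at h1
  obtain ⟨v, i, hi, hc⟩ := h1
  cases i with
  | zero =>
    exfalso
    refine hc ⟨fun _ => ⟨0, ht⟩, fun x hx y hy a => ?_⟩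
    exact absurd (hx.1.zero.symm.trans hy.1.zero) a.ne
  | succ i =>
    have nb : ∀ x ∈ sph H' v (i + 1), ∃ y, Rch H' Set.univ i v y ∧ H'.Adj y x := fun x hx =>
      hx.1.succ.resolve_left (hx.2 i (Nat.lt_succ_self i))
    have vL : v ∈ L := by
      by_contra hv
      refine hc ⟨fun _ => ⟨0, ht⟩, fun x hx y _ a => ?_⟩
      have := Rch.ind (G := H') (S := Set.univ) (a := v) (fun _ y => y = v) rfl
        (fun _ _ h => h) (fun _ b c _ _ e a => absurd (e ▸ a.2.1) hv) _ _ hx.1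
      exact absurd (this ▸ a.2.1) hv
    have key : ∀ s y, Rch H' Set.univ s v y →
        y ∈ L ∧ (s ≤ i → Rch H {y | Rch H' Set.univ i v y} s v y) ∧ Rch H' Set.univ s v y :=
      Rch.ind (G := H') (S := Set.univ) (a := v)
        (fun s y => y ∈ L ∧ (s ≤ i → Rch H {y | Rch H' Set.univ i v y} s v y) ∧
          Rch H' Set.univ s v y)
        ⟨vL, fun _ => Rch.refl (S := {y | Rch H' Set.univ i v y})
          (Rch.refl (Set.mem_univ _) _ : Rch H' Set.univ i v v) _, Rch.refl (Set.mem_univ _) _⟩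
        (fun s y h => ⟨h.1, fun hs => (h.2.1 (by omega)).mono subset_rfl (Nat.le_succ s),
          h.2.2.mono subset_rfl (Nat.le_succ s)⟩)
        (fun s y z _ _ h a => ⟨a.2.2, fun hs => (h.2.1 (by omega)).trans
          (Rch.adj a.1 (h.2.2.mono subset_rfl (by omega))
            ((h.2.2.trans (Rch.adj a (Set.mem_univ _) (Set.mem_univ _))).mono subset_rfl hs)),
          h.2.2.trans (Rch.adj a (Set.mem_univ _) (Set.mem_univ _))⟩)
    refine ⟨{y | Rch H' Set.univ i v y}, sph H' v (i + 1), v, fun y hy => (key _ _ hy).1,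
      fun y hy => (key _ _ hy.1).1, fun x hx hx' => hx'.2 i (Nat.lt_succ_self i) hx,
      Rch.refl (Set.mem_univ _) _, fun x hx => ((key _ _ hx).2.1 le_rfl).mono subset_rfl (by omega),
      fun x hx => ?_, fun ⟨φ, hφ⟩ => hc ⟨φ, fun x hx y hy a => hφ x hx y hy a.1⟩⟩
    obtain ⟨y, hy, a⟩ := nb x hx
    exact ⟨y, hy, a.1⟩

lemma levels {d D t : ℕ} (ht : 1 ≤ t) {H : SimpleGraph α} (h : ∀ H' ≤ H, WD d D H') (m : ℕ) :
    ∀ L : Set α, ¬ Col H L (((d + 1) * (D + 1)) ^ m * t) →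
    ∃ (T : Fin m → Set α) (L' : Set α) (v : Fin m → α), (∀ i, T i ⊆ L) ∧ L' ⊆ L ∧
      (∀ i j x, x ∈ T i → x ∈ T j → i = j) ∧ (∀ i, ∀ x ∈ T i, x ∉ L') ∧ (∀ i, v i ∈ T i) ∧
      (∀ i, ∀ x ∈ T i, Rch H (T i) D (v i) x) ∧ (∀ i, ∀ x ∈ L', ∃ y ∈ T i, H.Adj y x) ∧
      ¬ Col H L' t := by
  induction m with
  | zero =>
    intro L hL
    exact ⟨Fin.elim0, L, Fin.elim0, fun i => i.elim0, subset_rfl, fun i => i.elim0,
      fun i => i.elim0, fun i => i.elim0, fun i => i.elim0, fun i => i.elim0, by simpa using hL⟩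
  | succ m ih =>
    intro L hL
    rw [pow_succ', mul_assoc] at hL
    obtain ⟨T0, L1, v0, a1, a2, a3, a4, a5, a6, a7⟩ :=
      level (Nat.mul_pos (by positivity) ht) h L hL
    obtain ⟨T, L', v, b1, b2, b3, b4, b5, b6, b7, b8⟩ := ih L1 a7
    refine ⟨Fin.cons T0 T, L', Fin.cons v0 v, ?_, b2.trans a2, ?_, ?_, ?_, ?_, ?_, b8⟩
    · intro i
      refine Fin.cases ?_ (fun i => ?_) i
      · exact a1
      · exact (b1 i).trans a2
    · intro i j x
      refine Fin.cases ?_ (fun i => ?_) i <;> refine Fin.cases ?_ (fun j => ?_) j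
      · exact fun _ _ => rfl
      · exact fun h1 h2 => absurd (b1 j h2) (a3 x h1)
      · exact fun h1 h2 => absurd (b1 i h1) (a3 x h2)
      · exact fun h1 h2 => congrArg Fin.succ (b3 i j x h1 h2)
    · intro i
      refine Fin.cases ?_ (fun i => ?_) i
      · exact fun x hx hx' => a3 x hx (b2 hx')
      · exact b4 i
    · intro i
      refine Fin.cases ?_ (fun i => ?_) i
      · exact a4
      · exact b5 i
    · intro i
      refine Fin.cases ?_ (fun i => ?_) i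
      · exact a5
      · exact b6 i
    · intro i
      refine Fin.cases ?_ (fun i => ?_) i
      · exact fun x hx => a6 x (b2 hx)
      · exact b7 i

lemma big_of_not_col [Finite α] {H : SimpleGraph α} {L : Set α} {t : ℕ}
    (h : ¬ Col H L (t + 1)) : ∃ x : Fin t → α, Function.Injective x ∧ ∀ i, x i ∈ L := by
  classical
  have := Fintype.ofFinite L
  by_cases hc : t ≤ Fintype.card L
  · obtain ⟨e⟩ : Nonempty (Fin t ↪ L) := Function.Embedding.nonempty_of_card_le (by simpa using hc)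
    exact ⟨fun i => (e i).1, Subtype.val_injective.comp e.injective, fun i => (e i).2⟩
  · exfalso
    obtain ⟨e⟩ : Nonempty (L ↪ Fin (t + 1)) :=
      Function.Embedding.nonempty_of_card_le (by rw [Fintype.card_fin]; omega)
    refine h ⟨fun x => if hx : x ∈ L then e ⟨x, hx⟩ else 0, fun x hx y hy a e' => ?_⟩
    simp only [dif_pos hx, dif_pos hy] at e'
    exact a.ne (congrArg Subtype.val (e.injective e'))

theorem any_minor [Finite α] [Fintype γ] {d D : ℕ} {H : SimpleGraph α}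
    (h : ∀ H' ≤ H, WD d D H') (Γ : SimpleGraph γ)
    (hc : ¬ Col H Set.univ (((d + 1) * (D + 1)) ^ Fintype.card γ *
      (Fintype.card γ * Fintype.card γ + 1))) : SM (D + 1) Γ H := by
  obtain ⟨T, L', v, -, -, b3, b4, b5, b6, b7, b8⟩ := levels (by omega) h _ _ hc
  obtain ⟨x, xi, xL⟩ := big_of_not_col b8
  let e := Fintype.equivFin γ
  let z : γ → γ → α := fun i j => x (finProdFinEquiv (e i, e j))
  have zL : ∀ i j, z i j ∈ L' := fun i j => xL _
  refine ⟨fun i => T (e i) ∪ Set.range (z i), fun i => v (e i), ?_, fun i => Or.inl (b5 _), ?_, ?_⟩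
  · rintro i j y (h1 | ⟨k, rfl⟩) (h2 | ⟨l, h2⟩)
    · exact e.injective (b3 _ _ y h1 h2)
    · exact absurd (h2 ▸ zL j l) (b4 _ y h1)
    · exact absurd (zL i k) (b4 _ _ h2)
    · exact (e.injective (congrArg Prod.fst (finProdFinEquiv.injective (xi h2)))).symm
  · rintro i y (h1 | ⟨k, rfl⟩)
    · exact (b6 _ y h1).mono Set.subset_union_left (Nat.le_succ D)
    · obtain ⟨w, hw, a⟩ := b7 (e i) _ (zL i k)
      exact ((b6 _ w hw).mono Set.subset_union_left le_rfl).trans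
        (Rch.adj a (Or.inl hw) (Or.inr ⟨k, rfl⟩))
  · intro i j _
    obtain ⟨w, hw, a⟩ := b7 (e j) _ (zL i j)
    exact ⟨z i j, Or.inr ⟨j, rfl⟩, w, Or.inl hw, a.symm⟩

end Pool.Agent.H.MP_bdfe62_co
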