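import Pool.Agent.H.MP_bdfe62_co.A

set_option autoImplicit false

namespace Pool.Agent.H.MP_bdfe62_co

open SimpleGraph Finset

variable {α : Type}

lemma shift_ramsey (k : ℕ) : ∀ (κ : Type) [Finite κ], ∃ N : ℕ, ∀ c : List (Fin N) → κ,
    ∃ a l b, l.length = k ∧ (a :: (l ++ [b])).Pairwise (· < ·) ∧ c (a :: l) = c (l ++ [b]) := by
  induction k with
  | zero =>
    intro κ _
    have := Fintype.ofFinite κ
    refine ⟨Fintype.card κ + 1, fun c => ?_⟩
    obtain ⟨a, b, hab, e⟩ := Fintype.exists_ne_map_eq_of_card_lt (fun a => c [a]) (by simp)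
    rcases lt_or_gt_of_ne hab with h | h
    · exact ⟨a, [], b, rfl, by simpa using h, e⟩
    · exact ⟨b, [], a, rfl, by simpa using h, e.symm⟩
  | succ k ih =>
    intro κ _
    obtain ⟨N, hN⟩ := ih (Set κ)
    refine ⟨N, fun c => ?_⟩
    obtain ⟨a, l, b, hl, hp, e⟩ := hN fun l => {z | ∃ b, (l ++ [b]).Pairwise (· < ·) ∧
      c (l ++ [b]) = z}
    have h1 : c (a :: (l ++ [b])) ∈ {z | ∃ b', ((a :: l) ++ [b']).Pairwise (· < ·) ∧
        c ((a :: l) ++ [b']) = z} := ⟨b, hp, rfl⟩
    have e' : {z | ∃ b', ((a :: l) ++ [b']).Pairwise (· < ·) ∧ c ((a :: l) ++ [b']) = z} =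
      {z | ∃ b', ((l ++ [b]) ++ [b']).Pairwise (· < ·) ∧ c ((l ++ [b]) ++ [b']) = z} := e
    rw [e'] at h1
    obtain ⟨b', h2, h3⟩ := h1
    refine ⟨a, l ++ [b], b', by simp [hl], ?_, h3.symm⟩
    refine List.pairwise_cons.2 ⟨fun x hx => ?_, h2⟩
    have ha := (List.pairwise_cons.1 hp).1
    rcases List.mem_append.1 hx with hx | hx
    · exact ha x hx
    · have h4 := (List.pairwise_append.1 h2).2.2 b (by simp) x hx
      exact (ha b (by simp)).trans h4

lemma count_idx {N : ℕ} (l : List (Fin N)) (hl : l.Pairwise (· < ·)) :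
    ∀ j, j < l.length → ∃ t : Fin N, l.countP (fun x => decide (x ≤ t)) = j + 1 ∧ t ∈ l := by
  induction l with
  | nil => intro j hj; simp at hj
  | cons a l ih =>
    obtain ⟨h1, h2⟩ := List.pairwise_cons.1 hl
    intro j hj
    cases j with
    | zero =>
      refine ⟨a, ?_, by simp⟩
      rw [List.countP_cons_of_pos (by simp), List.countP_eq_zero.2]
      intro x hx
      simpa using h1 x hx
    | succ j =>
      obtain ⟨t, ht, hm⟩ := ih h2 j (by simpa using hj)
      refine ⟨t, ?_, List.mem_cons_of_mem _ hm⟩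
      rw [List.countP_cons_of_pos (by simpa using (h1 t hm).le), ht]

theorem shift (D q : ℕ) : ∃ (γ : Type) (_ : Fintype γ) (Γ : SimpleGraph γ),
    (∀ v, ∀ i ≤ D, Col Γ (sph Γ v i) 2) ∧ ¬ Col Γ Set.univ q := by
  classical
  obtain ⟨N, hN⟩ := shift_ramsey (2 * D + 2) (Option (Fin q))
  let γ := {l : List (Fin N) // l.length = 2 * D + 3 ∧ l.Pairwise (· < ·)}
  have : Finite γ := ((List.finite_length_eq (Fin N) (2 * D + 3)).subset
    (t := {l | l.length = 2 * D + 3 ∧ l.Pairwise (· < ·)}) fun l hl => hl.1).to_subtype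
  let Arc : γ → γ → Prop := fun x y => ∃ a l b, x.1 = a :: l ∧ y.1 = l ++ [b]
  refine ⟨γ, Fintype.ofFinite γ, SimpleGraph.fromRel Arc, fun v i hi => ?_, ?_⟩
  · obtain ⟨t, ht, -⟩ := count_idx v.1 v.2.2 (D + 1) (by rw [v.2.1]; omega)
    let n : γ → ℕ := fun x => x.1.countP fun x => decide (x ≤ t)
    have arc : ∀ x y, Arc x y → n y ≤ n x + 1 ∧ n x ≤ n y + 1 ∧
        (1 ≤ n x → n y ≤ 2 * D + 2 → n x = n y + 1) := by
      rintro x y ⟨a, l, b, hx, hy⟩
      have px := x.2.2
      have py := y.2.2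
      have ly := y.2.1
      simp only [n]
      rw [hx] at px ⊢
      rw [hy] at py ly ⊢
      rw [List.countP_cons, List.countP_append, List.countP_singleton]
      refine ⟨by split_ifs <;> omega, by split_ifs <;> omega, fun h1 h2 => ?_⟩
      have ha : a ≤ t := by
        by_contra hc
        rw [if_neg (by simpa using hc), List.countP_eq_zero.2] at h1
        · omega
        · intro z hz
          have := (List.pairwise_cons.1 px).1 z hz
          simp only [decide_eq_true_eq, not_le]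
          exact (not_le.1 hc).trans this
      have hb : ¬ b ≤ t := by
        intro hc
        rw [if_pos (by simpa using hc), List.countP_eq_length.2] at h2
        · simp only [List.length_append, List.length_singleton] at ly
          omega
        · intro z hz
          have := (List.pairwise_append.1 py).2.2 z hz b (by simp)
          simpa using this.le.trans hc
      rw [if_pos (by simpa using ha), if_neg (by simpa using hb)]
    have rng : ∀ s x, Rch (SimpleGraph.fromRel Arc) Set.univ s v x →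
        n x ≤ D + 2 + s ∧ D + 2 ≤ n x + s :=
      Rch.ind (G := SimpleGraph.fromRel Arc) (S := Set.univ) (a := v)
        (fun s x => n x ≤ D + 2 + s ∧ D + 2 ≤ n x + s) ⟨ht.le, ht.ge⟩
        (fun s x h => by omega) fun s x y _ _ h a => by
          rcases a.2 with e | e
          · have := arc _ _ e; omega
          · have := arc _ _ e; omega
    refine ⟨fun x => ⟨n x % 2, Nat.mod_lt _ (by norm_num)⟩, fun x hx y hy a e => ?_⟩
    have e : n x % 2 = n y % 2 := congrArg Fin.val e
    have h1 := rng _ _ hx.1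
    have h2 := rng _ _ hy.1
    rcases a.2 with e' | e'
    · have := arc _ _ e'; omega
    · have := arc _ _ e'; omega
  · rintro ⟨φ, hφ⟩
    obtain ⟨a, l, b, hl, hp, e⟩ := hN fun l =>
      if h : l.length = 2 * D + 3 ∧ l.Pairwise (· < ·) then some (φ ⟨l, h⟩) else none
    have h1 : (a :: l).length = 2 * D + 3 ∧ (a :: l).Pairwise (· < ·) :=
      ⟨by simp [hl], hp.sublist (List.Sublist.cons_cons a (List.sublist_append_left _ _))⟩
    have h2 : (l ++ [b]).length = 2 * D + 3 ∧ (l ++ [b]).Pairwise (· < ·) :=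
      ⟨by simp [hl], (List.pairwise_cons.1 hp).2⟩
    simp only [dif_pos h1, dif_pos h2, Option.some.injEq] at e
    refine hφ ⟨_, h1⟩ trivial ⟨_, h2⟩ trivial ⟨fun h => ?_, Or.inl ⟨a, l, b, rfl, rfl⟩⟩ e
    have h3 : a :: l = l ++ [b] := congrArg Subtype.val h
    exact lt_irrefl a ((List.pairwise_cons.1 hp).1 a (by rw [← h3]; simp))

open Classical in
noncomputable def E (H : SimpleGraph α) (A B : Finset α) : ℕ :=
  ∑ a ∈ A, (B.filter fun b => H.Adj a b).card

lemma E_comm (H : SimpleGraph α) (A B : Finset α) : E H A B = E H B A := by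
  classical
  unfold E
  simp only [card_filter]
  rw [sum_comm]
  refine sum_congr rfl fun b _ => sum_congr rfl fun a _ => ?_
  rw [H.adj_comm]

open Classical in
lemma mindeg (H : SimpleGraph α) (δ : ℕ) (n : ℕ) : ∀ A B : Finset α, A.card + B.card = n →
    δ * n < E H A B → ∃ A' ⊆ A, ∃ B' ⊆ B, A'.Nonempty ∧ B'.Nonempty ∧
      (∀ a ∈ A', δ ≤ (B'.filter fun b => H.Adj a b).card) ∧
      ∀ b ∈ B', δ ≤ (A'.filter fun a => H.Adj b a).card := by
  induction n with
  | zero =>
    intro A B h1 h2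
    have : A = ∅ := card_eq_zero.1 (by omega)
    subst this
    simp [E] at h2
  | succ n ih =>
    intro A B h1 h2
    by_cases c1 : ∃ a ∈ A, (B.filter fun b => H.Adj a b).card < δ
    · obtain ⟨a, ha, hlt⟩ := c1
      have e : E H A B = (B.filter fun b => H.Adj a b).card + E H (A.erase a) B :=
        (add_sum_erase A _ ha).symm
      have := card_erase_add_one ha
      obtain ⟨A', s1, B', s2, r⟩ := ih (A.erase a) B (by omega) (by
        rw [Nat.mul_succ] at h2; omega)
      exact ⟨A', s1.trans (erase_subset _ _), B', s2, r⟩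
    by_cases c2 : ∃ b ∈ B, (A.filter fun a => H.Adj b a).card < δ
    · obtain ⟨b, hb, hlt⟩ := c2
      have e : E H B A = (A.filter fun a => H.Adj b a).card + E H (B.erase b) A :=
        (add_sum_erase B _ hb).symm
      have := card_erase_add_one hb
      obtain ⟨A', s1, B', s2, r⟩ := ih A (B.erase b) (by omega) (by
        rw [Nat.mul_succ, E_comm] at h2; rw [E_comm]; omega)
      exact ⟨A', s1, B', s2.trans (erase_subset _ _), r⟩
    push Not at c1 c2
    refine ⟨A, subset_rfl, B, subset_rfl, ?_, ?_, c1, c2⟩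
    · rw [nonempty_iff_ne_empty]; rintro rfl; simp [E] at h2
    · rw [nonempty_iff_ne_empty]; rintro rfl; simp [E] at h2

open Classical in
lemma contract (H : SimpleGraph α) (q : ℕ) (A B : Finset α) (hd : Disjoint A B) (hA : A.Nonempty)
    (hc : B.card ≤ A.card) (hq : 1 ≤ q)
    (hδ : ∀ a ∈ A, q * q + 1 ≤ (B.filter fun b => H.Adj a b).card) :
    ∃ M : SimpleGraph B, SM 1 M H ∧ ¬ Col M Set.univ q := by
  by_contra hcon
  push Not at hcon
  let Ch := ∀ a : A, {b : B // H.Adj a b}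
  let M : Ch → SimpleGraph B := fun s =>
    SimpleGraph.fromRel fun u w => ∃ a : A, (s a).1 = u ∧ H.Adj a w
  have hM : ∀ s, SM 1 (M s) H := by
    intro s
    refine ⟨fun u => {x | x = u.1 ∨ ∃ a : A, (s a).1 = u ∧ a.1 = x}, fun u => u.1, ?_,
      fun u => Or.inl rfl, ?_, ?_⟩
    · rintro u w x (h1 | ⟨a, h1, h1'⟩) (h2 | ⟨a', h2, h2'⟩)
      · exact Subtype.ext (h1.symm.trans h2)
      · exact absurd (h1 ▸ u.2 : x ∈ B) (disjoint_left.1 hd (h2' ▸ a'.2))
      · exact absurd (h2 ▸ w.2 : x ∈ B) (disjoint_left.1 hd (h1' ▸ a.2))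
      · obtain rfl : a = a' := Subtype.ext (h1'.trans h2'.symm)
        exact h1.symm.trans h2
    · rintro u x (rfl | ⟨a, rfl, rfl⟩)
      · exact Rch.refl (S := {x | x = u.1 ∨ ∃ a : A, (s a).1 = u ∧ a.1 = x}) (Or.inl rfl) _
      · exact Rch.adj (s a).2.symm (Or.inl rfl) (Or.inr ⟨a, rfl, rfl⟩)
    · rintro u w ⟨-, ⟨a, h1, h2⟩ | ⟨a, h1, h2⟩⟩
      · exact ⟨a, Or.inr ⟨a, h1, rfl⟩, w, Or.inl rfl, h2⟩
      · exact ⟨u, Or.inl rfl, a, Or.inr ⟨a, h1, rfl⟩, h2.symm⟩
  choose c hcc using fun s => hcon (M s) (hM s)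
  have inj : Function.Injective fun s : Ch => ((c s, fun a : A => c s (s a).1) :
      (B → Fin q) × (A → Fin q)) := by
    intro s s' e
    have e1 : c s = c s' := congrArg Prod.fst e
    funext a
    have e2 : c s (s a).1 = c s' (s' a).1 := congrFun (congrArg Prod.snd e) a
    rw [← e1] at e2
    by_contra hne
    exact hcc s _ trivial _ trivial ⟨fun h => hne (Subtype.ext h), Or.inl ⟨a, rfl, (s' a).2⟩⟩ e2
  have h1 := Fintype.card_le_of_injective _ inj
  have h2 : (q * q + 1) ^ A.card ≤ Fintype.card Ch := by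
    rw [Fintype.card_pi, ← Fintype.card_coe A, ← card_univ, ← prod_const]
    refine prod_le_prod' fun a _ => (hδ a a.2).trans ?_
    rw [← Fintype.card_coe]
    refine Fintype.card_le_of_injective
      (fun b => ⟨⟨b.1, (mem_filter.1 b.2).1⟩, (mem_filter.1 b.2).2⟩) fun b b' h => ?_
    exact Subtype.ext (congrArg (fun z => z.1.1) h)
  simp only [Fintype.card_prod, Fintype.card_fun, Fintype.card_fin, Fintype.card_coe] at h1
  have h3 : q ^ B.card ≤ q ^ A.card := Nat.pow_le_pow_right hq hc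
  have h4 : (q * q) ^ A.card < (q * q + 1) ^ A.card :=
    Nat.pow_lt_pow_left (Nat.lt_succ_self _) (card_pos.2 hA).ne'
  rw [mul_pow] at h4
  have := Nat.mul_le_mul_right (q ^ A.card) h3
  omega

theorem dense {k : ℕ} (H : SimpleGraph (Fin k)) (q : ℕ) (hq : 1 ≤ q)
    (h : q * q * (q * q + 1) * k < H.edgeSet.ncard) :
    ∃ (μ : Type) (_ : Finite μ) (M : SimpleGraph μ), SM 1 M H ∧ ¬ Col M Set.univ q := by
  classical
  by_cases hc : Col H Set.univ q
  swap
  · exact ⟨Fin k, inferInstance, H, SM.refl 1 H, hc⟩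
  obtain ⟨φ, hφ⟩ := hc
  let V : Fin q → Finset (Fin k) := fun i => univ.filter fun x => φ x = i
  have tot : ∑ p : Fin q × Fin q, E H (V p.1) (V p.2) = 2 * H.edgeSet.ncard := by
    rw [Set.ncard_eq_toFinset_card', ← SimpleGraph.edgeFinset,
      ← H.sum_degrees_eq_twice_card_edges, Fintype.sum_prod_type,
      ← sum_fiberwise univ φ]
    refine sum_congr rfl fun i _ => ?_
    show ∑ j, ∑ a ∈ V i, ((V j).filter fun b => H.Adj a b).card = _
    rw [sum_comm]
    refine sum_congr rfl fun a _ => ?_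
    rw [← card_neighborFinset_eq_degree, card_eq_sum_card_fiberwise (f := φ) (t := univ)
      (fun _ _ => mem_coe.2 (mem_univ _))]
    refine sum_congr rfl fun j _ => congrArg card ?_
    ext b
    simp [V, and_comm]
  have ex : ∃ p : Fin q × Fin q, (q * q + 1) * (2 * k) < E H (V p.1) (V p.2) := by
    by_contra hn
    push Not at hn
    have := sum_le_card_nsmul univ _ _ fun p _ => hn p
    rw [tot] at this
    simp only [card_univ, Fintype.card_prod, Fintype.card_fin, smul_eq_mul] at this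
    nlinarith
  obtain ⟨⟨i, j⟩, hp⟩ := ex
  have ck : ∀ i, (V i).card ≤ k := fun i => (card_le_univ _).trans (by simp)
  obtain ⟨A, sA, B, sB, nA, nB, dA, dB⟩ := mindeg H (q * q + 1) _ (V i) (V j) rfl
    (lt_of_le_of_lt (Nat.mul_le_mul_left _ (by have := ck i; have := ck j; omega)) hp)
  have hij : i ≠ j := by
    rintro rfl
    obtain ⟨a, ha⟩ := nA
    obtain ⟨b, hb⟩ := card_pos.1 (lt_of_lt_of_le (Nat.succ_pos _) (dA a ha))
    exact hφ a trivial b trivial (mem_filter.1 hb).2
      ((mem_filter.1 (sA ha)).2.trans (mem_filter.1 (sB (mem_filter.1 hb).1)).2.symm)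
  have dis : Disjoint A B := disjoint_left.2 fun x h1 h2 =>
    hij ((mem_filter.1 (sA h1)).2.symm.trans (mem_filter.1 (sB h2)).2)
  rcases le_total B.card A.card with hl | hl
  · obtain ⟨M, h1, h2⟩ := contract H q A B dis nA hl hq dA
    exact ⟨B, inferInstance, M, h1, h2⟩
  · obtain ⟨M, h1, h2⟩ := contract H q B A dis.symm nB hl hq dB
    exact ⟨A, inferInstance, M, h1, h2⟩

theorem main (d : ℕ) (f : ℕ → ℕ) (r : ℕ) : ∃ g : ℕ, ∀ (β : Type) (G : SimpleGraph β),
    (∀ G' : SimpleGraph β, G' ≤ G → ∀ r : ℕ, ∃ c : β → Fin (d + 1), ∀ u v : β,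
      Relation.ReflTransGen (fun a b => c a = c b ∧ G'.edist a b ≤ (r : ℕ∞)) u v →
      G'.edist u v ≤ (f r : ℕ∞)) →
    ∀ (k : ℕ) (H : SimpleGraph (Fin k)), SM r H G → H.edgeSet.ncard ≤ g * k := by
  set R0 := 1 * (2 * r + 1) + r
  set D := f (2 * R0 + 1)
  set R1 := (D + 1) * (2 * R0 + 1) + R0
  set D' := f (2 * R1 + 1)
  obtain ⟨γ, inst, Γ, h1, h2⟩ := shift D' ((d + 1) * (D' + 1) * 2)
  set q := ((d + 1) * (D + 1)) ^ Fintype.card γ * (Fintype.card γ * Fintype.card γ + 1)
  refine ⟨q * q * (q * q + 1), fun β G hG k H hH => ?_⟩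
  by_contra hlt
  obtain ⟨μ, _, M, m1, m2⟩ := dense H q (Nat.mul_pos (by positivity) (by omega)) (not_le.1 hlt)
  have m3 : SM R0 M G := m1.trans hH
  have m4 := any_minor (fun H' hl => wd_of_sm (m3.sub hl) hG) Γ m2
  exact h2 (col_of_wd (wd_of_sm (m4.trans m3) hG) h1)

end Pool.Agent.H.MP_bdfe62_co
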